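import Mathlib
import Pool.Agent.Lib.helper10.Dist

namespace Pool.Agent.Results.MP_3951c0_co.Counter
open Finset Pool.Agent.Lib.helper10.Dist

variable {V : Type}

/-- f(v) is at most the eccentricity of v. -/
def Broadcast (G : SimpleGraph V) (f : V → ℕ) : Prop := ∀ v, ∃ u, f v ≤ G.dist u v

def Hears (G : SimpleGraph V) (f : V → ℕ) (u : V) : Prop := ∃ v, 0 < f v ∧ G.dist u v ≤ f v

def MinimalDominating (G : SimpleGraph V) (f : V → ℕ) : Prop :=
  Broadcast G f ∧ (∀ u, Hears G f u) ∧
    ∀ g, Broadcast G g → (∀ v, g v ≤ f v) → g ≠ f → ¬ ∀ u, Hears G g u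

def D (u v : ℕ) : ℕ := (334909723610739869011763119777291959135574737598805247109460 >>> (2 * (10 * u + v))) % 4

def H0 : SimpleGraph (Fin 10) where
  Adj a b := D a.val b.val = 1
  symm := ⟨by decide +kernel⟩
  loopless := ⟨by decide +kernel⟩

instance : DecidableRel H0.Adj := fun a b => inferInstanceAs (Decidable (D a.val b.val = 1))

def G0 : SimpleGraph (Fin 8) where
  Adj a b := D a.val b.val = 1
  symm := ⟨by decide +kernel⟩
  loopless := ⟨by decide +kernel⟩

instance : DecidableRel G0.Adj := fun a b => inferInstanceAs (Decidable (D a.val b.val = 1))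

lemma dist0 (u v : Fin 10) : H0.dist u v = D u.val v.val :=
  dist_eq H0 (fun a b => D a.val b.val) (by decide +kernel) (by decide +kernel)
    (by decide +kernel) v u

lemma dist1 (u v : Fin 8) : G0.dist u v = D u.val v.val :=
  dist_eq G0 (fun a b => D a.val b.val) (by decide +kernel) (by decide +kernel)
    (by decide +kernel) v u

def f0 : Fin 8 → ℕ := ![1, 1, 1, 1, 0, 0, 0, 0]

lemma md : MinimalDominating G0 f0 := by
  simp only [MinimalDominating, Broadcast, Hears, dist1]
  refine ⟨by decide +kernel, by decide +kernel, fun g _ hle hne hd => hne ?_⟩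
  funext v
  have k1 : ∀ v : Fin 8, f0 v = 0 ∨ (f0 v = 1 ∧ ∃ u : Fin 8, ∀ w : Fin 8,
      0 < f0 w → D u.val w.val ≤ f0 w → w = v) := by decide +kernel
  rcases k1 v with h | ⟨h, u, hu⟩
  · have := hle v; omega
  · obtain ⟨w, w1, w2⟩ := hd u
    have e := hu w (lt_of_lt_of_le w1 (hle w)) (w2.trans (hle w))
    subst e
    have := hle w
    omega

def irr (L : List (ℕ × ℕ)) : Bool :=
  L.all fun p => (List.range 10).any fun u =>
    decide (D u p.1 ≤ p.2) && (decide (p.2 = 1) || decide (p.2 ≤ D u p.1)) &&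
      L.all fun q => decide (q.1 = p.1) || decide (q.2 < D u q.1)

def fin (L : List (ℕ × ℕ)) : Bool :=
  !((List.range 10).all fun u => L.any fun p => decide (D u p.1 ≤ p.2)) ||
    decide ((L.map Prod.snd).sum ≤ 3)

def go : ℕ → ℕ → List (ℕ × ℕ) → Bool
  | 0, _, L => fin L
  | k + 1, j, L => go k (j + 1) L &&
      [1, 2, 3].all fun x => !(irr ((j, x) :: L)) || go k (j + 1) ((j, x) :: L)

lemma go_true : go 10 0 [] = true := by decide +kernel

def S (g : ℕ → ℕ) : ℕ → List (ℕ × ℕ)
  | 0 => []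
  | j + 1 => if g j = 0 then S g j else (j, g j) :: S g j

lemma mem_S (g : ℕ → ℕ) (p : ℕ × ℕ) : ∀ j, p ∈ S g j ↔ p.1 < j ∧ g p.1 = p.2 ∧ p.2 ≠ 0
  | 0 => by simp [S]
  | j + 1 => by
    obtain ⟨a, b⟩ := p
    simp only [S]
    split_ifs with h
    · rw [mem_S g (a, b) j]
      constructor
      · rintro ⟨h1, h2⟩; exact ⟨by omega, h2⟩
      · rintro ⟨h1, h2, h3⟩
        refine ⟨?_, h2, h3⟩
        by_contra hh
        have : a = j := by simp only at h1 hh; omega
        subst this
        exact h3 (h2.symm.trans h)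
    · rw [List.mem_cons, mem_S g (a, b) j, Prod.mk.injEq]
      constructor
      · rintro (⟨rfl, rfl⟩ | ⟨h1, h2⟩)
        · exact ⟨by simp, rfl, h⟩
        · exact ⟨by omega, h2⟩
      · rintro ⟨h1, h2, h3⟩
        by_cases e : a = j
        · left; subst e; exact ⟨rfl, h2.symm⟩
        · right; exact ⟨by simp only at h1 ⊢; omega, h2, h3⟩

lemma sum_S (g : ℕ → ℕ) : ∀ j, ((S g j).map Prod.snd).sum = ∑ i ∈ range j, g i
  | 0 => by simp [S]
  | j + 1 => by
    rw [sum_range_succ, ← sum_S g j]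
    simp only [S]
    split_ifs with h
    · omega
    · simp [add_comm]

lemma go_S (g : ℕ → ℕ) (h4 : ∀ j, g j ≤ 3) (hi : ∀ j ≤ 10, irr (S g j) = true) :
    ∀ k j, j + k = 10 → go k j (S g j) = true → fin (S g 10) = true
  | 0, j, e, h => by
    have : j = 10 := by omega
    subst this
    exact h
  | k + 1, j, e, h => by
    apply go_S g h4 hi k (j + 1) (by omega)
    have h1 := hi (j + 1) (by omega)
    simp only [go, Bool.and_eq_true, List.all_eq_true] at h
    simp only [S] at h1 ⊢
    split_ifs with h0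
    · exact h.1
    · rw [if_neg h0] at h1
      have h2 := h.2 (g j) (by have := h4 j; simp; omega)
      simpa [h1] using h2

lemma bound (f : Fin 10 → ℕ) (hf : MinimalDominating H0 f) : ∑ v, f v ≤ 3 := by
  obtain ⟨hb, hd, hm⟩ := hf
  have hD : ∀ u v : Fin 10, D u.val v.val ≤ 3 := by decide +kernel
  have hp : ∀ v, 0 < f v → ∃ u : Fin 10, D u.val v.val ≤ f v ∧ (f v = 1 ∨ f v ≤ D u.val v.val) ∧
      ∀ w, w ≠ v → 0 < f w → f w < D u.val w.val := by
    intro v hv
    have hle : ∀ w, Function.update f v (f v - 1) w ≤ f w := by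
      intro w
      by_cases e : w = v
      · subst e; simp
      · simp [e]
    have h1 := hm (Function.update f v (f v - 1))
      (fun w => (hb w).imp fun u hu => (hle w).trans hu) hle
      (fun e => by have := congrFun e v; simp at this; omega)
    obtain ⟨u, hu⟩ := not_forall.mp h1
    have h2 : ∀ w, w ≠ v → 0 < f w → f w < D u.val w.val := by
      intro w hw h0
      by_contra hh
      exact hu ⟨w, by simpa [hw] using h0, by rw [dist0]; simpa [hw] using hh⟩
    refine ⟨u, ?_, ?_, h2⟩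
    · obtain ⟨w, hw1, hw2⟩ := hd u
      rw [dist0] at hw2
      by_cases e : w = v
      · exact e ▸ hw2
      · have := h2 w e hw1; omega
    · by_contra hh
      exact hu ⟨v, by simp; omega, by rw [dist0]; simp; omega⟩
  obtain ⟨g, hg⟩ : ∃ g : ℕ → ℕ, ∀ j, g j = if h : j < 10 then f ⟨j, h⟩ else 0 := ⟨_, fun _ => rfl⟩
  have hgv : ∀ v : Fin 10, g v.val = f v := fun v => by simp [hg]
  have h4 : ∀ j, g j ≤ 3 := by
    intro j
    rw [hg]
    split_ifs with h
    · obtain ⟨u, hu⟩ := hb ⟨j, h⟩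
      rw [dist0] at hu
      exact hu.trans (hD _ _)
    · omega
  have hi : ∀ j ≤ 10, irr (S g j) = true := by
    intro j hj
    simp only [irr, List.all_eq_true, List.any_eq_true, Bool.and_eq_true, Bool.or_eq_true,
      decide_eq_true_eq, List.mem_range, mem_S]
    rintro ⟨a, b⟩ ⟨a1, a2, a3⟩
    simp only at a1 a2 a3 ⊢
    have e := hgv ⟨a, by omega⟩
    simp only at e
    obtain ⟨u, u1, u2, u3⟩ := hp ⟨a, by omega⟩ (by omega)
    simp only at u1 u2
    refine ⟨u.val, u.2, ⟨by omega, by omega⟩, ?_⟩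
    rintro ⟨c, d⟩ ⟨c1, c2, c3⟩
    simp only at c1 c2 c3 ⊢
    by_cases e2 : c = a
    · exact Or.inl e2
    · right
      have e3 := hgv ⟨c, by omega⟩
      simp only at e3
      have := u3 ⟨c, by omega⟩ (fun h => e2 (by simpa using h)) (by omega)
      simp only at this
      omega
  have hf := go_S g h4 hi 10 0 rfl go_true
  have hdom : ((List.range 10).all fun u => (S g 10).any fun p => decide (D u p.1 ≤ p.2)) = true := by
    simp only [List.all_eq_true, List.any_eq_true, decide_eq_true_eq, List.mem_range, mem_S]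
    intro u hu
    obtain ⟨w, hw1, hw2⟩ := hd ⟨u, hu⟩
    rw [dist0] at hw2
    exact ⟨(w.val, f w), ⟨w.2, hgv w, by simp only; omega⟩, hw2⟩
  simp only [fin, hdom, Bool.not_true, Bool.false_or, decide_eq_true_eq, sum_S] at hf
  rw [← Fin.sum_univ_eq_sum_range] at hf
  simpa only [hgv] using hf

theorem result : ∃ (m n : ℕ) (G : SimpleGraph (Fin m)) (H : SimpleGraph (Fin n))
    (φ : Fin m ↪ Fin n), G.Connected ∧ H.Connected ∧ (∀ a b, G.Adj a b → H.Adj (φ a) (φ b)) ∧
    (∀ a b, G.dist a b = H.dist (φ a) (φ b)) ∧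
    ∃ f, MinimalDominating G f ∧ ∀ g, MinimalDominating H g → ∑ v, g v < ∑ v, f v := by
  refine ⟨8, 10, G0, H0, Fin.castLEEmb (by norm_num),
    conn_of G0 0 (fun v => D v.val 0) (by decide +kernel),
    conn_of H0 0 (fun v => D v.val 0) (by decide +kernel), fun a b h => h,
    fun a b => by rw [dist0, dist1]; rfl, f0, md, fun g hg => ?_⟩
  have h1 := bound g hg
  have h2 : ∑ v, f0 v = 4 := by decide
  omega

end Pool.Agent.Results.MP_3951c0_co.Counter
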